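import Pool.Agent.R588.S.Final

/-!
# The ultrafilter number at a strong limit singular cardinal

If `κ` is an indestructibly supercompact cardinal and `μ` is a cardinal, then there is a forcing
notion which makes `κ` a strong limit cardinal of countable cofinality, keeps `κ⁺` regular, and
forces that no uniform ultrafilter over `κ` has a base of size at most `μ`.

Idea of the proof. Let `P` be the product of many copies of the forcing adding a Cohen subset
of `κ`, with coordinates `(c, t, w)` where `t` is a finite subset of `κ`, `w < max κ μ`, and `c` is
a pair of an ordinal, the rank, and of a code of a system of named equivalence relations on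
`max κ μ`, one for each finite subset `t` of `κ`. By supercompactness in the extension by `P`
and a recursion along the ranks there is a normal measure `U` on `κ` in the extension such that the
generic bits at the coordinates `c` whose code describes a system of named equivalence relations
of smaller rank are coherent: for each `t` and `z` and for `U`-almost all `γ`, the bits of the
classes of `z` for `t` and for `t ∪ {γ}` agree. Let `Q` be `P` followed by Prikry forcing
for `U`. Given names `B i`, `i < μ`, for subsets of `κ` of size `κ`, list their elements by names and
let two names be equivalent for `t` if some Prikry condition with stem `t` forces that they are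
equal. The coherent bits of the classes give a named subset `S` of `κ`, and by genericity `S`
splits every `B i`.
-/

set_option autoImplicit false

namespace Pool.Agent.Results.MP_2739cb_lc.LargeUltrafilterNumber

open Cardinal Pool.Agent.R588.S Pool.Agent.Helper669.K

theorem result (κ : Cardinal.{0}) (hκ : IndestructiblySupercompact κ) (μ : Cardinal.{0}) :
    ∃ (Q : Type) (_ : Preorder Q), Nonempty Q ∧ ∀ q : Q, q ∈ StrongLimitN Q κ ∧
      q ∈ CofOmegaN Q κ ∧ q ∈ StaysRegular Q (Order.succ κ) ∧
      q ∈ UltrafilterNumberGt Q κ.ord.ToType μ.ord.ToType :=
  main κ hκ μ

end Pool.Agent.Results.MP_2739cb_lc.LargeUltrafilterNumber
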